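import Pool.Agent.H941.ND.Node

set_option autoImplicit false
set_option linter.unusedSectionVars false
set_option linter.unusedVariables false

/-! # The families of roots of a component -/

namespace Pool.Agent.H941.ND

open Polynomial Finset Filter Topology Metric Pool.Agent.Helper748.TP Pool.Agent.H941.TF
  Pool.Agent.H941.SC Pool.Agent.H941.NC

variable {N : ℕ}

/-- the families of roots of a component -/
theorem famJ {Q Γ : ℂ[X][X]} {T : ℂ → ℂ} {a : Fin N → ℂ → ℂ} (P : Par N Q T a) (hΓ : Γ.Monic)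
    (hd : Γ ∣ Q) : ∃ J : Finset (Fin N),
      (∀ᶠ u in 𝓝[≠] (0 : ℂ), evt (T u) Γ = ∏ j ∈ J, (X - C (a j u))) ∧
      ∀ j ∈ J, ∀ᶠ u in 𝓝[≠] (0 : ℂ), ev2 Γ (T u) (a j u) = 0 := by
  classical
  set J : Finset (Fin N) := univ.filter fun j => ∀ᶠ u in 𝓝[≠] (0 : ℂ), ev2 Γ (T u) (a j u) = 0
    with hJ
  have h1 : ∀ᶠ u in 𝓝[≠] (0 : ℂ), ∀ j, ev2 Γ (T u) (a j u) = 0 ↔ j ∈ J := by
    rw [eventually_all]
    intro j
    rcases fam_ind (Γ := Γ) P j with h | h
    · have hj : j ∈ J := by rw [hJ, mem_filter]; exact ⟨mem_univ j, h⟩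
      exact h.mono fun u hu => ⟨fun _ => hj, fun _ => hu⟩
    · have hj : j ∉ J := by
        rw [hJ, mem_filter]
        rintro ⟨-, h'⟩
        obtain ⟨u, hu1, hu2⟩ := (h.and h').exists
        exact hu1 hu2
      exact h.mono fun u hu => ⟨fun h' => absurd h' hu, fun h' => absurd h' hj⟩
  refine ⟨J, ?_, fun j hj => by rw [hJ, mem_filter] at hj; exact hj.2⟩
  filter_upwards [h1, P.root, P.inj] with u hu hr hi
  have hdv : evt (T u) Γ ∣ nod fun j => a j u := by
    rw [← hr]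
    exact map_dvd (evt (T u)) hd
  exact eq_prod hi (evt_monic hΓ (T u)) hdv J hu

/-- the roots at the point -/
theorem famJ_lim {Γ : ℂ[X][X]} {T : ℂ → ℂ} {a : Fin N → ℂ → ℂ} (hT : AnalyticAt ℂ T 0)
    (ha : ∀ j, AnalyticAt ℂ (a j) 0) {J : Finset (Fin N)}
    (hJ : ∀ᶠ u in 𝓝[≠] (0 : ℂ), evt (T u) Γ = ∏ j ∈ J, (X - C (a j u))) :
    evt (T 0) Γ = ∏ j ∈ J, (X - C (a j 0)) := by
  refine Polynomial.funext fun ξ => ?_
  have h3 : Tendsto (fun u => ev2 Γ (T u) ξ) (𝓝[≠] 0) (𝓝 (ev2 Γ (T 0) ξ)) :=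
    (hasDerivAt_ev2 Γ hT.differentiableAt.hasDerivAt
      (hasDerivAt_const (0 : ℂ) ξ)).continuousAt.tendsto.mono_left nhdsWithin_le_nhds
  have h4 : Tendsto (fun u => ∏ j ∈ J, (ξ - a j u)) (𝓝[≠] 0) (𝓝 (∏ j ∈ J, (ξ - a j 0))) :=
    tendsto_finsetProd _ fun j _ => tendsto_const_nhds.sub
      ((ha j).continuousAt.tendsto.mono_left nhdsWithin_le_nhds)
  have h2 : ∀ᶠ u in 𝓝[≠] (0 : ℂ), ev2 Γ (T u) ξ = ∏ j ∈ J, (ξ - a j u) := by
    filter_upwards [hJ] with u hu
    rw [ev2, hu, eval_prod]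
    exact Finset.prod_congr rfl fun j _ => by rw [eval_sub, eval_X, eval_C]
  have h5 := tendsto_nhds_unique (h3.congr' h2) h4
  rw [eval_prod]
  refine Eq.trans h5 (Finset.prod_congr rfl fun j _ => ?_)
  rw [eval_sub, eval_X, eval_C]

/-- the derivative at a root -/
theorem der_J {J : Finset (Fin N)} {x : Fin N → ℂ} {j : Fin N} (hj : j ∈ J) :
    (derivative (∏ i ∈ J, (X - C (x i)))).eval (x j) = ∏ i ∈ J.erase j, (x j - x i) := by
  classical
  rw [← Finset.mul_prod_erase J _ hj, derivative_mul, derivative_X_sub_C, one_mul, eval_add,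
    eval_mul, eval_sub, eval_X, eval_C, sub_self, zero_mul, add_zero, eval_prod]
  exact Finset.prod_congr rfl fun i _ => by rw [eval_sub, eval_X, eval_C]

theorem card_J {F : ℂ[X][X]} (hF : F.Monic) {t : ℂ} {J : Finset (Fin N)} {x : Fin N → ℂ}
    (h : evt t F = ∏ i ∈ J, (X - C (x i))) : J.card = F.natDegree := by
  rw [← natDegree_evt hF t, h, natDegree_prod_of_monic _ _ fun i _ => monic_X_sub_C _]
  simp

/-- Lagrange interpolation at the roots of a component -/
theorem lag_J {J : Finset (Fin N)} {x : Fin N → ℂ} (hx : Function.Injective x) {r : ℂ[X]}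
    (hr : r.degree < (J.card : WithBot ℕ)) (z : ℂ) :
    r.eval z = ∑ j ∈ J, r.eval (x j) / (∏ i ∈ J.erase j, (x j - x i)) *
      ∏ i ∈ J.erase j, (z - x i) := by
  classical
  have h2 := Lagrange.eq_interpolate (v := x) (s := J) (fun a _ b _ h => hx h) hr
  conv_lhs => rw [h2]
  rw [Lagrange.interpolate_apply, eval_finsetSum]
  refine Finset.sum_congr rfl fun j _ => ?_
  rw [eval_mul, eval_C, Lagrange.basis, eval_prod, div_mul_eq_mul_div, mul_div_assoc,
    ← Finset.prod_div_distrib]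
  congr 1
  refine Finset.prod_congr rfl fun k hk => ?_
  rw [Lagrange.basisDivisor, eval_mul, eval_C, eval_sub, eval_X, eval_C, div_eq_mul_inv, mul_comm]

/-- there are two branches at a double point without vertical branches -/
theorem node_two {F : ℂ[X][X]} {T : ℂ → ℂ} {a : Fin N → ℂ → ℂ} (hT : AnalyticAt ℂ T 0)
    (ha : ∀ j, AnalyticAt ℂ (a j) 0) (hinj : ∀ᶠ u in 𝓝[≠] (0 : ℂ), Function.Injective fun j => a j u)
    {J : Finset (Fin N)} (hJ : ∀ᶠ u in 𝓝[≠] (0 : ℂ), evt (T u) F = ∏ j ∈ J, (X - C (a j u)))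
    {x : ℂ} (h0 : ev2 F (T 0) x = 0) (hx : ev2 (derivative F) (T 0) x = 0)
    (hxx : ev2 (derivative (derivative F)) (T 0) x ≠ 0) :
    ∃ j1 ∈ J, ∃ j2 ∈ J, a j1 0 = x ∧ a j2 0 = x ∧
      (∀ᶠ u in 𝓝[≠] (0 : ℂ), ev2 (derivative F) (T u) (a j2 u) ≠ 0) ∧
      Tendsto (fun u => ev2 (derivative F) (T u) (a j1 u) / ev2 (derivative F) (T u) (a j2 u))
        (𝓝[≠] 0) (𝓝 (-1)) := by
  classical
  have hp := famJ_lim hT ha hJ
  set K := J.filter fun j => a j 0 = x with hK
  set R : ℂ[X] := ∏ j ∈ J \ K, (X - C (a j 0)) with hR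
  have hKJ : K ⊆ J := filter_subset _ _
  have hpR : evt (T 0) F = (X - C x) ^ K.card * R := by
    rw [hp, ← Finset.prod_sdiff hKJ, mul_comm, ← hR]
    congr 1
    rw [Finset.prod_congr rfl (g := fun _ => X - C x), Finset.prod_const]
    intro j hj
    rw [hK, mem_filter] at hj
    rw [hj.2]
  have hRx : R.eval x ≠ 0 := by
    rw [hR, eval_prod, Finset.prod_ne_zero_iff]
    intro j hj
    rw [Finset.mem_sdiff] at hj
    rw [eval_sub, eval_X, eval_C, sub_ne_zero]
    intro h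
    exact hj.2 (by rw [hK, mem_filter]; exact ⟨hj.1, h.symm⟩)
  have hK2 : K.card = 2 := by
    have e0 : (evt (T 0) F).eval x = 0 := h0
    have e1 : (derivative (evt (T 0) F)).eval x = 0 := by rw [← evt_der]; exact hx
    have e2 : (derivative (derivative (evt (T 0) F))).eval x ≠ 0 := by
      rw [← evt_der, ← evt_der]; exact hxx
    rcases lt_or_ge K.card 3 with h | h
    · interval_cases hc : K.card
      · rw [hpR, pow_zero, one_mul] at e0
        exact absurd e0 hRx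
      · rw [hpR, pow_one, derivative_mul, derivative_X_sub_C, one_mul, eval_add, eval_mul,
          eval_sub, eval_X, eval_C, sub_self, zero_mul, add_zero] at e1
        exact absurd e1 hRx
      · rfl
    · exfalso
      obtain ⟨n, hn⟩ := Nat.exists_eq_add_of_le h
      apply e2
      have : evt (T 0) F = (X - C x) ^ 3 * ((X - C x) ^ n * R) := by
        rw [hpR, hn]
        ring
      rw [this]
      simp [derivative_mul, derivative_pow]
  obtain ⟨j1, j2, hne, hKe⟩ := Finset.card_eq_two.1 hK2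
  have m1 : j1 ∈ K := by rw [hKe]; simp
  have m2 : j2 ∈ K := by rw [hKe]; simp
  have m1' := m1
  have m2' := m2
  rw [hK, mem_filter] at m1' m2'
  set S := (J.erase j1).erase j2 with hS
  have hS' : (J.erase j2).erase j1 = S := by rw [hS, Finset.erase_right_comm]
  have hR0 : ∏ i ∈ S, (x - a i 0) ≠ 0 := by
    rw [Finset.prod_ne_zero_iff]
    intro i hi
    rw [hS, mem_erase, mem_erase] at hi
    rw [sub_ne_zero]
    intro h
    have : i ∈ K := by rw [hK, mem_filter]; exact ⟨hi.2.2, h.symm⟩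
    rw [hKe] at this
    simp only [mem_insert, mem_singleton] at this
    rcases this with h' | h'
    · exact hi.2.1 h'
    · exact hi.1 h'
  have hlim : ∀ j, a j 0 = x → Tendsto (fun u => ∏ i ∈ S, (a j u - a i u)) (𝓝[≠] 0)
      (𝓝 (∏ i ∈ S, (x - a i 0))) := by
    intro j hj
    refine tendsto_finsetProd _ fun i _ => ?_
    have := ((ha j).continuousAt.tendsto.sub (ha i).continuousAt.tendsto).mono_left
      (nhdsWithin_le_nhds (s := {(0 : ℂ)}ᶜ))
    rwa [hj] at this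
  have t1 := hlim j1 m1'.2
  have t2 := hlim j2 m2'.2
  have w1 : ∀ᶠ u in 𝓝[≠] (0 : ℂ), ev2 (derivative F) (T u) (a j1 u) =
      (a j1 u - a j2 u) * ∏ i ∈ S, (a j1 u - a i u) := by
    filter_upwards [hJ] with u hu
    rw [ev2, evt_der, hu, der_J (x := fun j => a j u) m1'.1,
      ← Finset.mul_prod_erase (J.erase j1) _ (mem_erase.2 ⟨hne.symm, m2'.1⟩)]
  have w2 : ∀ᶠ u in 𝓝[≠] (0 : ℂ), ev2 (derivative F) (T u) (a j2 u) =
      (a j2 u - a j1 u) * ∏ i ∈ S, (a j2 u - a i u) := by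
    filter_upwards [hJ] with u hu
    rw [ev2, evt_der, hu, der_J (x := fun j => a j u) m2'.1,
      ← Finset.mul_prod_erase (J.erase j2) _ (mem_erase.2 ⟨hne, m1'.1⟩), hS']
  refine ⟨j1, m1'.1, j2, m2'.1, m1'.2, m2'.2, ?_, ?_⟩
  · filter_upwards [w2, hinj, t2.eventually_ne hR0] with u k1 k2 k3
    rw [k1]
    refine mul_ne_zero (sub_ne_zero.2 fun h => hne ?_) k3
    exact (k2 h).symm
  · have h1 := (t1.div t2 hR0).neg
    rw [div_self hR0] at h1
    refine h1.congr' ?_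
    filter_upwards [w1, w2, hinj, t2.eventually_ne hR0] with u k1 k2 k3 k4
    have k5 : a j1 u - a j2 u ≠ 0 := sub_ne_zero.2 fun h => hne (k3 h)
    have k6 : a j2 u - a j1 u ≠ 0 := sub_ne_zero.2 fun h => hne (k3 h.symm)
    rw [k1, k2]
    change -((∏ i ∈ S, (a j1 u - a i u)) / ∏ i ∈ S, (a j2 u - a i u)) = _
    field_simp
    ring

end Pool.Agent.H941.ND
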