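import Pool.Agent.H941.ND.Fams
import Pool.Agent.H941.NC.Irr

set_option autoImplicit false
set_option linter.unusedSectionVars false
set_option linter.unusedVariables false

/-! # Bounded functions on the curve, multiplied by the derivative, are polynomials -/

namespace Pool.Agent.H941.ND

open Polynomial Finset Filter Topology Metric Pool.Agent.Helper748.TP Pool.Agent.H941.TF
  Pool.Agent.H941.SC Pool.Agent.H941.NC

/-- a polynomial without zeros on the curve is invertible over the rational functions of `t` -/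
theorem cop {F H : ℂ[X][X]} (hF : F.Monic) (hF0 : F.natDegree ≠ 0) {B : Finset ℂ}
    (h : ∀ t ∉ B, ∀ x, ev2 F t x = 0 → ev2 H t x ≠ 0) :
    ∃ (R : ℂ[X]) (α β : ℂ[X][X]), R ≠ 0 ∧ C R = α * F + β * H := by
  classical
  by_cases hH : H = 0
  · exfalso
    obtain ⟨t, ht⟩ := Infinite.exists_notMem_finset B
    obtain ⟨x, hx⟩ := IsAlgClosed.exists_root (evt t F) (by
      rw [degree_eq_natDegree (evt_monic hF t).ne_zero, natDegree_evt hF]
      exact_mod_cast hF0)
    refine h t ht x hx ?_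
    rw [hH, ev2_zero]
  · obtain ⟨α, β, _, _, h4⟩ := Polynomial.exists_mul_add_mul_eq_C_resultant (m := F.natDegree)
      (n := H.natDegree) F H le_rfl le_rfl (Or.inl hF0)
    refine ⟨resultant F H F.natDegree H.natDegree, α, β, ?_, by rw [← h4]; ring⟩
    intro h0
    have hl : H.leadingCoeff ≠ 0 := leadingCoeff_ne_zero.2 hH
    obtain ⟨t, ht⟩ := Infinite.exists_notMem_finset (B ∪ H.leadingCoeff.roots.toFinset)
    rw [Finset.mem_union, not_or, Multiset.mem_toFinset, mem_roots hl] at ht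
    have h5 := resultant_map_map F H F.natDegree H.natDegree (evalRingHom t)
    rw [h0, map_zero] at h5
    have h6 : (F.map (evalRingHom t)).natDegree = F.natDegree := natDegree_evt hF t
    have h7 : (H.map (evalRingHom t)).natDegree = H.natDegree :=
      natDegree_map_of_leadingCoeff_ne_zero _ ht.2
    have h8 : IsCoprime (F.map (evalRingHom t)) (H.map (evalRingHom t)) := by
      rw [Polynomial.isCoprime_iff_aeval_ne_zero_of_isAlgClosed ℂ ℂ]
      intro x
      rw [coe_aeval_eq_eval]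
      by_cases hx : (F.map (evalRingHom t)).eval x = 0
      · exact Or.inr (h t ht.1 x hx)
      · exact Or.inl hx
    refine resultant_ne_zero _ _ h8 ?_
    rw [h6, h7]
    exact h5

/-- **Bounded functions on the curve.** -/
theorem bdd_poly {N : ℕ} {Q F : ℂ[X][X]} (hF : F.Monic) (hF0 : F.natDegree ≠ 0) (hFQ : F ∣ Q)
    {B : Finset ℂ} (hsep : ∀ t ∉ B, (evt t F).Separable) {A H : ℂ[X][X]}
    (hH : ∀ t ∉ B, ∀ x, ev2 F t x = 0 → ev2 H t x ≠ 0)
    (hpar : ∀ b, ∃ (m : ℕ) (a : Fin N → ℂ → ℂ) (L : Fin N → ℂ), 0 < m ∧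
      (∀ j, AnalyticAt ℂ (a j) 0) ∧ Par N Q (fun u => b + u ^ m) a ∧
      ∀ j, (∀ᶠ u in 𝓝[≠] (0 : ℂ), ev2 F (b + u ^ m) (a j u) = 0) →
        Tendsto (fun u => ev2 A (b + u ^ m) (a j u) / ev2 H (b + u ^ m) (a j u))
          (𝓝[≠] 0) (𝓝 (L j))) :
    ∃ P, F ∣ A * derivative F - H * P := by
  classical
  obtain ⟨R, α, β, hR, hαβ⟩ := cop hF hF0 hH
  set P0 := (β * A * derivative F) %ₘ F with hP0
  have hP0d : P0.degree < F.degree := degree_modByMonic_lt _ hF
  have hdv : F ∣ C R * (A * derivative F) - H * P0 := by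
    have h3 := modByMonic_add_div (β * A * derivative F) F
    refine ⟨α * (A * derivative F) + H * ((β * A * derivative F) /ₘ F), ?_⟩
    rw [← hP0] at h3
    linear_combination (A * derivative F) * hαβ - H * h3
  clear_value P0
  obtain ⟨P, hP⟩ : C R ∣ P0 := by
    refine C_dvd_of_lim _ R rfl hR P0 fun t₀ z => ?_
    obtain ⟨m, a, L, hm, ha, Pr, hL⟩ := hpar t₀
    obtain ⟨J, hJ, hJ0⟩ := famJ Pr hF hFQ
    refine ⟨∑ j ∈ J, L j * ∏ i ∈ J.erase j, (z - a i 0), lim_pow hm ?_⟩
    have hBu := ev_notin B t₀ hm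
    have hRu := ev_pow t₀ hm hR
    have hall : ∀ᶠ u in 𝓝[≠] (0 : ℂ), ∀ j ∈ J, ev2 F (t₀ + u ^ m) (a j u) = 0 := by
      rw [Finset.eventually_all]
      exact hJ0
    have h1 : (fun u => ∑ j ∈ J, (ev2 A (t₀ + u ^ m) (a j u) / ev2 H (t₀ + u ^ m) (a j u)) *
        ∏ i ∈ J.erase j, (z - a i u)) =ᶠ[𝓝[≠] 0]
        fun u => ev2 P0 (t₀ + u ^ m) z / R.eval (t₀ + u ^ m) := by
      filter_upwards [hJ, Pr.inj, hall, hBu, hRu] with u h1 h2 h3 h4 h5
      have hc := card_J hF h1
      have h6 := lag_J h2 (r := evt (t₀ + u ^ m) P0) (J := J) (by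
        rw [hc, ← degree_eq_natDegree hF.ne_zero]
        exact lt_of_le_of_lt degree_map_le hP0d) z
      change _ = (evt (t₀ + u ^ m) P0).eval z / _
      rw [h6, Finset.sum_div]
      refine Finset.sum_congr rfl fun j hj => ?_
      have k1 := ev2_dvd hdv (h3 j hj)
      rw [ev2_sub, ev2_mul, ev2_mul, ev2_mul, ev2_C] at k1
      have k2 : ev2 (derivative F) (t₀ + u ^ m) (a j u) = ∏ i ∈ J.erase j, (a j u - a i u) := by
        rw [ev2, evt_der, h1, der_J (x := fun j => a j u) hj]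
      have k3 : ∏ i ∈ J.erase j, (a j u - a i u) ≠ 0 := by
        rw [Finset.prod_ne_zero_iff]
        intro i hi
        rw [mem_erase] at hi
        exact sub_ne_zero.2 fun h => hi.1 (h2 h).symm
      have k4 := hH _ h4 _ (h3 j hj)
      rw [k2] at k1
      change _ = ev2 P0 (t₀ + u ^ m) (a j u) / _ * _ / _
      have k5 : ev2 P0 (t₀ + u ^ m) (a j u) = R.eval (t₀ + u ^ m) *
          (ev2 A (t₀ + u ^ m) (a j u) / ev2 H (t₀ + u ^ m) (a j u)) *
          ∏ i ∈ J.erase j, (a j u - a i u) := by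
        field_simp
        linear_combination -k1
      rw [k5]
      field_simp
    refine Tendsto.congr' h1 (tendsto_finsetSum _ fun j hj => (hL j (hJ0 j hj)).mul
      (tendsto_finsetProd _ fun i _ => tendsto_const_nhds.sub ?_))
    exact (ha i).continuousAt.tendsto.mono_left nhdsWithin_le_nhds
  refine ⟨P, dvd_of_ev hF (B := B ∪ R.roots.toFinset) fun t ht => ?_⟩
  rw [Finset.mem_union, not_or, Multiset.mem_toFinset, mem_roots hR] at ht
  refine ⟨hsep t ht.1, fun x hx => ?_⟩
  have k1 := ev2_dvd hdv hx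
  rw [hP, ev2_sub, ev2_mul, ev2_mul, ev2_mul, ev2_mul, ev2_C] at k1
  rw [ev2_sub, ev2_mul, ev2_mul]
  refine (mul_eq_zero.1 ?_).resolve_left ht.2
  linear_combination k1

end Pool.Agent.H941.ND
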