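import Pool.Agent.H941.ND.Nod
import Pool.Agent.H941.NC.Main

set_option autoImplicit false
set_option linter.unusedSectionVars false
set_option linter.unusedVariables false

/-! # There is no primitive -/

namespace Pool.Agent.H941.ND

open Polynomial Finset Filter Topology Metric Pool.Agent.Helper748.TP Pool.Agent.H941.TF
  Pool.Agent.H941.SC Pool.Agent.H941.NC

section
variable {F Ψ Φi Ψi hxQ htQ γ' V p r q : ℂ[X][X]} {D0 d : ℂ[X]} {σ : ℝ} {e n : ℕ}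

/-- the end of the proof -/
theorem endgame (S : Nod F D0.roots.toFinset) (he : 4 ≤ e) (hσ : σ < 0) (hD0 : D0 ≠ 0)
    {α β : ℂ[X][X]} (hαβ : C D0 = α * (F * Ψ) + β * derivative (F * Ψ))
    (hFd : F.natDegree = e)
    (TQ : TD ((e + n : ℕ) : ℤ) (F * Ψ))
    (iΦ : Inf F Φi e) (iΨ : Inf Ψ Ψi n) (hsi : (evt 0 (Φi * Ψi)).Separable)
    (D : Dat (e + n) (F * Ψ) γ' hxQ htQ σ V d p r q) {M : ℕ}
    (hγ : γ' ∣ (F * Ψ) ^ M)
    (hhc : (kc (σ : ℂ) * hxQ).coeff (e + n - 1) = -3)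
    (TH : TD (((e + n : ℕ) : ℤ) - 1) (kc (σ : ℂ) * hxQ))
    {p1 ρ Z : ℂ[X][X]} (hp1 : p1.natDegree ≤ e + n - 2)
    (hρ : ρ.natDegree ≤ e + n + 1) (TP : TD (((e + n : ℕ) : ℤ) + 2) p1) (TZ : TD 3 Z)
    (E : EE (F * Ψ) (kc (σ : ℂ) * hxQ) (kc (σ : ℂ) * htQ) p1 ρ)
    (hall : ∀ t ∉ D0.roots.toFinset, ∀ x, ev2 (F * Ψ) t x = 0 →
      ev2 (p1 - kc (σ : ℂ) * hxQ * Z) t x = 0) : False := by
  classical
  have hN2 : 2 ≤ e + n := by omega
  have hi := integ (σ : ℂ) D.γ0 D.hxE D.htE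
  have hhd : (kc (σ : ℂ) * hxQ).natDegree ≤ e + n - 1 := (natDegree_C_mul_le _ _).trans D.hxd
  have hld : (kc (σ : ℂ) * htQ).natDegree ≤ e + n - 1 := (natDegree_C_mul_le _ _).trans D.htd
  have hQm := D.monic
  have hQN := D.deg
  have hB : ∀ t ∉ D0.roots.toFinset, D0.eval t ≠ 0 := by
    intro t ht h
    rw [Multiset.mem_toFinset, mem_roots hD0] at ht
    exact ht h
  have hsep : ∀ t ∉ D0.roots.toFinset, (evt t (F * Ψ)).Separable := fun t ht =>
    sep_of_disc hαβ (hB t ht)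
  have hhne : ∀ t ∉ D0.roots.toFinset, ∀ x, ev2 (F * Ψ) t x = 0 →
      ev2 (kc (σ : ℂ) * hxQ) t x ≠ 0 := fun t ht x h0 => hneQ D hγ hσ (hsep t ht) h0
  have hrel : ∀ t ∉ D0.roots.toFinset, ∀ x, ev2 (F * Ψ) t x = 0 →
      ev2 (kc (σ : ℂ) * htQ) t x * ev2 p1 t x + ev2 (kc (σ : ℂ) * hxQ) t x * ev2 ρ t x = 0 :=
    fun t ht x h0 => relQ D hγ hσ (hsep t ht) h0 E
  have htanQ : ∀ t ∉ D0.roots.toFinset, ∀ x, ev2 (F * Ψ) t x = 0 → ∀ a c : ℂ,
      ev2 (kc (σ : ℂ) * htQ) t x * a + ev2 (kc (σ : ℂ) * hxQ) t x * c = 0 →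
      ev2 (dt (F * Ψ)) t x * a + ev2 (derivative (F * Ψ)) t x * c = 0 :=
    fun t ht x h0 a c h => tanQ D hγ hσ (hsep t ht) h0 h
  have iQ : Inf (F * Ψ) (Φi * Ψi) (e + n) := iΦ.mul iΨ
  obtain ⟨X', hX, hX0, hXr, PX⟩ := iQ.par hQm hQN (by omega) hsi
  have hpar : ∀ b, ∃ (m : ℕ) (a : Fin (e + n) → ℂ → ℂ), 0 < m ∧ (∀ j, AnalyticAt ℂ (a j) 0) ∧
      Par (e + n) (F * Ψ) (fun u => b + u ^ m) a := by
    intro b
    obtain ⟨m, a, L, hm, ha, P, -⟩ := fin_pt2 D hN2 hσ hγ hD0 hαβ b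
    exact ⟨m, a, hm, ha, P⟩
  set h := kc (σ : ℂ) * hxQ with hh
  set l := kc (σ : ℂ) * htQ with hl
  set Q := F * Ψ with hQd
  have hFm : F.Monic := S.monic
  have hQNc : Q.coeff (e + n) = 1 := by rw [← hQN]; exact hQm
  obtain ⟨w1, hw1⟩ : Q ∣ p1 - h * Z := dvd_of_ev hQm (B := D0.roots.toFinset) fun t ht =>
    ⟨hsep t ht, hall t ht⟩
  obtain ⟨w2, hw2⟩ : Q ∣ ρ + l * Z := dvd_of_ev hQm (B := D0.roots.toFinset) fun t ht =>
    ⟨hsep t ht, fun x h0 => by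
      have h1 := hrel t ht x h0
      have h2 := hall t ht x h0
      have h3 := hhne t ht x h0
      rw [ev2_sub, ev2_mul h] at h2
      rw [ev2_add, ev2_mul l]
      refine (mul_eq_zero.1 ?_).resolve_left h3
      linear_combination h1 - ev2 l t x * h2⟩
  set a6 := w1 - derivative Z with ha6
  set c6 := w2 + dt Z with hc6
  have h1 : p1 - (Q * derivative Z + h * Z) = Q * a6 := by
    rw [ha6]
    linear_combination hw1
  have h2 : ρ + (Q * dt Z + l * Z) = Q * c6 := by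
    rw [hc6]
    linear_combination hw2
  have hQc : ∀ w : ℂ[X][X], w ≠ 0 → (Q * w).natDegree = e + n + w.natDegree := by
    intro w hw
    rw [hQm.natDegree_mul' hw, hQN]
  have hFc : ∀ w : ℂ[X][X], w ≠ 0 → (F * w).natDegree = e + w.natDegree := by
    intro w hw
    rw [hFm.natDegree_mul' hw, hFd]
  have hZ3 : Z.natDegree ≤ 3 := TZ.natDegree
  have ha6d : a6.natDegree ≤ 1 := by
    by_cases ha : a6 = 0
    · rw [ha, natDegree_zero]; omega
    have h3 := deg_op (Q := Q) (g := h) (R := Z) hQN.le (by omega) hhd hZ3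
    have h4 := lead_op (Q := Q) (g := h) (R := Z) hQN.le hQNc (by omega) hhd hhc hZ3
    have h5 : (Q * derivative Z + h * Z).coeff (e + n + 1 + 1) = 0 := by
      rw [(by omega : e + n + 1 + 1 = e + n - 1 + 3), h4]
      push_cast
      ring
    have h6 := natDegree_le_pred (n := e + n + 1) (by omega) h5
    have h7 : (Q * a6).natDegree ≤ e + n + 1 := by
      rw [← h1]
      exact (natDegree_sub_le _ _).trans (max_le (by omega) h6)
    rw [hQc _ ha] at h7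
    omega
  have hdt : (dt Z).natDegree ≤ 2 := by
    rw [natDegree_le_iff_coeff_eq_zero]
    intro k hk
    rw [coeff_dt]
    have h3 : Z.coeff k = C ((Z.coeff k).coeff 0) := by
      ext j
      rw [coeff_C]
      split_ifs with h4
      · rw [h4]
      · exact TZ k j (by omega)
    rw [h3, derivative_C]
  have hc6d : c6.natDegree ≤ 2 := by
    by_cases hc : c6 = 0
    · rw [hc, natDegree_zero]; omega
    have hR : (Q * c6).natDegree ≤ e + n + 2 := by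
      rw [← h2]
      refine (natDegree_add_le _ _).trans (max_le (by omega) ((natDegree_add_le _ _).trans
        (max_le ?_ ?_)))
      · exact natDegree_mul_le.trans (by omega)
      · exact natDegree_mul_le.trans (by omega)
    rw [hQc _ hc] at hR
    omega
  -- the growth of `a6`
  have TA : TD (((e + n : ℕ) : ℤ) + 1) (derivative (Q * a6)) := by
    have h3 : TD (((e + n : ℕ) : ℤ) + 2) (Q * a6) := by
      rw [← h1]
      refine TP.sub (TD.add ?_ ?_)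
      · exact (TQ.mul TZ.der).mono (by omega)
      · exact (TH.mul TZ).mono (by omega)
    exact h3.der.mono (by omega)
  have hXroot : ∀ j, ∀ᶠ u in 𝓝 (0 : ℂ), ev2 (Φi * Ψi) u (X' j u) = 0 := by
    intro j
    filter_upwards [hXr] with u hu
    rw [ev2, hu]
    exact eval_nod (x := fun j => X' j u) j
  have TA2 : TD 2 a6 := by
    refine TD_of_lim (fun j => (hX j).continuousAt.tendsto.mono_left nhdsWithin_le_nhds) hX0
      (lt_of_le' (by omega) (ha6d.trans (by omega))) fun j => ?_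
    have h0 : ev2 (Φi * Ψi) 0 (X' j 0) = 0 := (hXroot j).self_of_nhds
    have n1 : ev2 (derivative (Φi * Ψi)) 0 (X' j 0) ≠ 0 := by
      have := sep_der hsi h0
      rwa [← evt_der] at this
    have t1 := iQ.lim' (hX j)
    obtain ⟨l', hl'⟩ := TA.lim ((hX j).continuousAt.tendsto.mono_left
      (nhdsWithin_le_nhds (s := {0}ᶜ)))
    refine ⟨_, (hl'.div t1 n1).congr' ?_⟩
    filter_upwards [(hXroot j).filter_mono nhdsWithin_le_nhds, ev_ne, t1.eventually_ne n1]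
      with u k1 k2 k3
    rw [iQ.rel u _ k2] at k1
    have k4 := (mul_eq_zero.1 k1).resolve_left (pow_ne_zero _ k2)
    have k5 : ev2 (derivative (Q * a6)) u⁻¹ (X' j u / u) =
        ev2 (derivative Q) u⁻¹ (X' j u / u) * ev2 a6 u⁻¹ (X' j u / u) := by
      rw [derivative_mul, ev2_add, ev2_mul, ev2_mul, k4, zero_mul, add_zero]
    have k6 := right_ne_zero_of_mul k3
    have k7 := left_ne_zero_of_mul k3
    change u ^ (((e + n : ℕ) : ℤ) + 1) * _ / (u ^ (((e + n : ℕ) : ℤ) - 1) * _) = _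
    rw [k5, show (((e + n : ℕ) : ℤ) + 1) = (((e + n : ℕ) : ℤ) - 1) + 2 by ring, zpow_add₀ k2]
    have k8 : ∀ A B w1 w2 : ℂ, A ≠ 0 → w1 ≠ 0 → w1 * w2 * (A * B) / (w1 * A) = w2 * B := by
      intro A B w1 w2 i1 i2
      field_simp
    exact k8 _ _ _ _ k6 k7
  -- the equation
  have E2 := E.gauge hi Z
  rw [h1, h2, EE] at E2
  have h3 : Q = Q * (dt a6 + derivative c6) + l * a6 + h * c6 := by
    refine mul_left_cancel₀ hQm.ne_zero ?_
    rw [dt_mul, derivative_mul] at E2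
    linear_combination E2
  have hlin : ∀ t x, ev2 Q t x = 0 → ev2 l t x * ev2 a6 t x + ev2 h t x * ev2 c6 t x = 0 := by
    intro t x h0
    have h4 := congrArg (fun P => ev2 P t x) h3
    beta_reduce at h4
    rw [ev2_add, ev2_add, ev2_mul Q, h0, ev2_mul l, ev2_mul h] at h4
    linear_combination -h4
  have htan : F ∣ dt F * a6 + derivative F * c6 := by
    refine dvd_of_ev S.monic (B := D0.roots.toFinset) fun t ht => ⟨S.sep t ht, fun x h0 => ?_⟩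
    have h4 : ev2 Q t x = 0 := by rw [hQd, ev2_mul, h0, zero_mul]
    have h5 := htanQ t ht x h4 _ _ (hlin t x h4)
    have hR0 : ev2 Ψ t x ≠ 0 := by
      have h6 := hsep t ht
      rw [hQd, map_mul] at h6
      exact sep_ne h6 h0
    rw [hQd, dt_mul, derivative_mul, ev2_add, ev2_add, ev2_mul, ev2_mul, ev2_mul, ev2_mul,
      h0] at h5
    rw [ev2_add, ev2_mul, ev2_mul]
    refine (mul_eq_zero.1 ?_).resolve_left hR0
    linear_combination h5
  have hv := S.field (q := 0) (by omega) hD0 hQm hQN hαβ iΦ iΨ hsi hpar htan (by simpa using TA2)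
  have hFsep : ∀ t ∉ D0.roots.toFinset, (evt t F).Separable := S.sep
  have ha60 : a6 = 0 := by
    obtain ⟨w, hw⟩ : F ∣ a6 := dvd_of_ev hFm (B := D0.roots.toFinset) fun t ht =>
      ⟨hFsep t ht, hv t ht⟩
    by_contra hne
    have hw0 : w ≠ 0 := by
      rintro rfl
      exact hne (by rw [hw, mul_zero])
    rw [hw, hFc _ hw0] at ha6d
    omega
  have hc60 : c6 = 0 := by
    obtain ⟨w, hw⟩ : F ∣ c6 := dvd_of_ev hFm (B := D0.roots.toFinset) fun t ht =>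
      ⟨hFsep t ht, fun x h0 => by
        have h4 := ev2_dvd htan h0
        rw [ha60, mul_zero, zero_add, ev2_mul] at h4
        exact (mul_eq_zero.1 h4).resolve_left (S.ne ht h0)⟩
    by_contra hne
    have hw0 : w ≠ 0 := by
      rintro rfl
      exact hne (by rw [hw, mul_zero])
    rw [hw, hFc _ hw0] at hc6d
    omega
  rw [ha60, hc60, dt_zero, derivative_zero, add_zero, mul_zero, mul_zero, mul_zero, add_zero,
    add_zero] at h3
  exact hQm.ne_zero h3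

end

section
variable {k : ℕ} {Γ Γi : Fin k → ℂ[X][X]} {nn : Fin k → ℕ}
  {F Φi hxQ htQ γ' V p r q : ℂ[X][X]} {D0 d : ℂ[X]} {σ : ℝ} {e n : ℕ}

/-- **There is no primitive.** -/
theorem main (S : Nod F D0.roots.toFinset) (he : 4 ≤ e) (hσ : σ < 0) (hD0 : D0 ≠ 0)
    {α β : ℂ[X][X]}
    (hαβ : C D0 = α * (F * ∏ j, Γ j) + β * derivative (F * ∏ j, Γ j))
    (hFd : F.natDegree = e)
    (TQ : TD ((e + n : ℕ) : ℤ) (F * ∏ j, Γ j))
    (iΦ : Inf F Φi e) (iΓ : ∀ j, Inf (Γ j) (Γi j) (nn j)) (hn : ∑ j, nn j = n)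
    (hsi : (evt 0 (Φi * ∏ j, Γi j)).Separable)
    (hΓm : ∀ j, (Γ j).Monic) (hΓirr : ∀ j, Irreducible (Γ j))
    (τ : Fin k → Finset ℂ) (hτ : ∀ j, 3 * nn j < (τ j).card)
    (hτ0 : ∀ j, ∀ t ∈ τ j, ∃ x, ev2 (Γ j) t x = 0 ∧
      ev2 (F * ∏ l ∈ univ.filter (· < j), Γ l) t x = 0)
    (D : Dat (e + n) (F * ∏ j, Γ j) γ' hxQ htQ σ V d p r q)
    (hV : V = VV (e + n) (F * ∏ j, Γ j) (kc (σ : ℂ) * hxQ)) {M : ℕ}
    (hγ : γ' ∣ (F * ∏ j, Γ j) ^ M)
    {δ : ℕ} (hlc : hxQ.coeff (e + n - 1) = C (δ : ℂ)) (hsum : σ * δ = -3) : False := by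
  classical
  have hN2 : 2 ≤ e + n := by omega
  have hhc : (kc (σ : ℂ) * hxQ).coeff (e + n - 1) = -3 := by
    rw [kc, coeff_C_mul, hlc, ← C_mul]
    have h1 : (σ : ℂ) * δ = -3 := by
      have : ((σ * δ : ℝ) : ℂ) = ((-3 : ℝ) : ℂ) := by rw [hsum]
      push_cast at this
      exact this
    rw [h1, C_neg, map_ofNat (C : ℂ →+* ℂ[X]) 3]
  have hhd : (kc (σ : ℂ) * hxQ).natDegree ≤ e + n - 1 := (natDegree_C_mul_le _ _).trans D.hxd
  have hQm := D.monic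
  have hQN := D.deg
  have hB : ∀ t ∉ D0.roots.toFinset, D0.eval t ≠ 0 := by
    intro t ht h
    rw [Multiset.mem_toFinset, mem_roots hD0] at ht
    exact ht h
  have hsep : ∀ t ∉ D0.roots.toFinset, (evt t (F * ∏ j, Γ j)).Separable := fun t ht =>
    sep_of_disc hαβ (hB t ht)
  have hhne : ∀ t ∉ D0.roots.toFinset, ∀ x, ev2 (F * ∏ j, Γ j) t x = 0 →
      ev2 (kc (σ : ℂ) * hxQ) t x ≠ 0 := fun t ht x h0 => hneQ D hγ hσ (hsep t ht) h0
  have iΨ : Inf (∏ j, Γ j) (∏ j, Γi j) n := by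
    have := Inf_prod univ iΓ
    rwa [hn] at this
  -- infinity
  have iQ : Inf (F * ∏ j, Γ j) (Φi * ∏ j, Γi j) (e + n) := iΦ.mul iΨ
  obtain ⟨X', hX, hX0, hXr, P⟩ := iQ.par hQm hQN (by omega) hsi
  have hdinf : ∀ᶠ u in 𝓝[≠] (0 : ℂ), d.eval u⁻¹ ≠ 0 := by
    filter_upwards [ev_notin' d.roots.toFinset] with u hu h
    apply hu
    rw [Multiset.mem_toFinset, mem_roots D.d0]
    exact h
  obtain ⟨b, hb, hbe, -, -⟩ := D.system hN2 hσ hγ P hdinf
  have TH : TD (((e + n : ℕ) : ℤ) - 1) (kc (σ : ℂ) * hxQ) := TDh iQ (by omega) hX hX0 hhd hbe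
  have TV : TD 1 V := by
    rw [hV]
    exact TD_VV hN2 TQ TH
  have hyi := lim_inf' D hN2 hσ hγ P hX hX0 hdinf hlc hsum TV
  obtain ⟨p1, ρ, hp1, hp1d, hρd, hE⟩ := poly D hN2 hσ hγ hD0 hαβ hhc
    (by rw [hV]; exact natDegree_VV _ _ _)
  have hinf : ∀ x : ℂ → ℂ, AnalyticAt ℂ x 0 →
      (∀ᶠ u in 𝓝 (0 : ℂ), ev2 (Φi * ∏ j, Γi j) u (x u) = 0) →
      (∃ L, Tendsto (fun u => u ^ (3 : ℤ) * (ev2 p1 u⁻¹ (x u / u) /
        ev2 (kc (σ : ℂ) * hxQ) u⁻¹ (x u / u))) (𝓝[≠] 0) (𝓝 L)) ∧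
      ∀ᶠ u in 𝓝[≠] (0 : ℂ), ev2 (kc (σ : ℂ) * hxQ) u⁻¹ (x u / u) ≠ 0 := by
    intro x hxa hx0
    obtain ⟨j, hj⟩ := root_uniq hX hX0 hXr hxa.continuousAt hx0
    have hj' := hj.filter_mono (nhdsWithin_le_nhds (s := {0}ᶜ))
    obtain ⟨L, hL⟩ := hyi j
    refine ⟨⟨L, hL.congr' ?_⟩, ?_⟩
    · filter_upwards [hj', hdinf] with u h1 h2
      rw [yyQ D hp1 _ h2, h1]
      rfl
    · filter_upwards [hj', hbe, P.root, P.inj] with u h1 h2 h3 h4
      rw [h1, h2 j]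
      have h5 := der_nod_ne h4 j
      have h6 : ev2 (derivative (F * ∏ j, Γ j)) u⁻¹ (X' j u / u) ≠ 0 := by
        rw [ev2, evt_der, h3]
        exact h5
      exact mul_ne_zero (by exact_mod_cast (hb j).ne) h6
  have hXroot : ∀ j, ∀ᶠ u in 𝓝 (0 : ℂ), ev2 (Φi * ∏ j, Γi j) u (X' j u) = 0 := by
    intro j
    filter_upwards [hXr] with u hu
    rw [ev2, hu]
    exact eval_nod (x := fun j => X' j u) j
  have TP : TD (((e + n : ℕ) : ℤ) + 2) p1 := by
    refine TD_of_lim (fun j => (hX j).continuousAt.tendsto.mono_left nhdsWithin_le_nhds) hX0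
      (lt_of_le' (by omega) (hp1d.trans (by omega))) fun j => ?_
    obtain ⟨⟨L, hL⟩, hne⟩ := hinf (X' j) (hX j) (hXroot j)
    obtain ⟨l, hl⟩ := TH.lim ((hX j).continuousAt.tendsto.mono_left (nhdsWithin_le_nhds (s := {0}ᶜ)))
    refine ⟨_, (hL.mul hl).congr' ?_⟩
    filter_upwards [hne, ev_ne] with u h1 h2
    rw [show (((e + n : ℕ) : ℤ) + 2) = 3 + (((e + n : ℕ) : ℤ) - 1) by ring, zpow_add₀ h2]
    have h13 : ∀ A B' w1 w2 : ℂ, B' ≠ 0 → w1 * (A / B') * (w2 * B') = w1 * w2 * A := by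
      intro A B' w1 w2 i1
      field_simp
    exact h13 _ _ _ _ h1
  have hFm : F.Monic := S.monic
  have hFQ : F ∣ F * ∏ j, Γ j := ⟨_, rfl⟩
  -- the residues on the curve with ordinary double points
  obtain ⟨W0, hW0⟩ := S.start (N := e + n) (Q := F * ∏ j, Γ j) (by omega) hFQ (A := p1)
    (H := kc (σ : ℂ) * hxQ) (fun t ht x h0 => hhne t ht x (ev2_dvd hFQ h0)) (fun b => by
    obtain ⟨m, a, L, hm, ha, Pf, hd, hL, hLL⟩ := fin_pt2 D hN2 hσ hγ hD0 hαβ b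
    refine ⟨m, a, L, hm, ha, Pf, fun j _ => (hL j).congr' ?_, hLL⟩
    filter_upwards [hd] with u hu
    exact yyQ D hp1 _ hu)
  have hZF : F ∣ p1 - kc (σ : ℂ) * hxQ * (W0 %ₘ F) := by
    obtain ⟨w, hw⟩ := hW0
    refine ⟨w + kc (σ : ℂ) * hxQ * (W0 /ₘ F), ?_⟩
    have h3 := modByMonic_add_div W0 F
    linear_combination hw - kc (σ : ℂ) * hxQ * h3
  have hZd : (W0 %ₘ F).degree < (e : WithBot ℕ) := by
    have := degree_modByMonic_lt W0 hFm
    rwa [degree_eq_natDegree hFm.ne_zero, hFd] at this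
  set Z := W0 %ₘ F with hZ
  clear_value Z
  have hsΦ : (evt 0 Φi).Separable := by
    have h := hsi
    rw [map_mul] at h
    exact h.of_mul_left
  obtain ⟨XH, hXH, hXH0, hXHr, PH⟩ := iΦ.par hFm hFd (by omega) hsΦ
  have hXHroot : ∀ j, ∀ᶠ u in 𝓝 (0 : ℂ), ev2 Φi u (XH j u) = 0 := by
    intro j
    filter_upwards [hXHr] with u hu
    rw [ev2, hu]
    exact eval_nod (x := fun j => XH j u) j
  have hXHroot' : ∀ j, ∀ᶠ u in 𝓝 (0 : ℂ), ev2 (Φi * ∏ j, Γi j) u (XH j u) = 0 := by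
    intro j
    filter_upwards [hXHroot j] with u hu
    rw [ev2_mul, hu, zero_mul]
  have hXHΦ : ∀ j, ∀ᶠ u in 𝓝[≠] (0 : ℂ), ev2 F u⁻¹ (XH j u / u) = 0 := by
    intro j
    filter_upwards [(hXHroot j).filter_mono nhdsWithin_le_nhds, ev_ne] with u h1 h2
    rw [iΦ.rel u _ h2] at h1
    exact (mul_eq_zero.1 h1).resolve_left (pow_ne_zero _ h2)
  have TZ : TD 3 Z := by
    refine TD_of_lim (fun j => (hXH j).continuousAt.tendsto.mono_left nhdsWithin_le_nhds) hXH0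
      hZd fun j => ?_
    obtain ⟨⟨L, hL⟩, hne⟩ := hinf (XH j) (hXH j) (hXHroot' j)
    refine ⟨L, hL.congr' ?_⟩
    filter_upwards [hne, hXHΦ j] with u h1 h2
    have h3 := ev2_dvd hZF h2
    rw [ev2_sub, ev2_mul (kc (σ : ℂ) * hxQ)] at h3
    congr 1
    rw [div_eq_iff h1]
    linear_combination h3
  -- the chain
  have hch : ∀ j : Fin k, ∀ t ∉ D0.roots.toFinset, ∀ x, ev2 (Γ j) t x = 0 →
      ev2 (p1 - kc (σ : ℂ) * hxQ * Z) t x = 0 := by
    intro j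
    refine WellFounded.induction (C := fun j : Fin k => ∀ t ∉ D0.roots.toFinset, ∀ x,
      ev2 (Γ j) t x = 0 → ev2 (p1 - kc (σ : ℂ) * hxQ * Z) t x = 0) (wellFounded_lt) j ?_
    intro j ih
    refine step D hN2 hσ hγ hD0 hαβ hp1 TZ (Γ := Γ j)
      (R := F * ∏ l ∈ univ.erase j, Γ l)
      (A := F * ∏ l ∈ univ.filter (· < j), Γ l) (Γi := Γi j)
      (Ri := Φi * ∏ l ∈ univ.erase j, Γi l) (Qi := Φi * ∏ j, Γi j) (n' := nn j)
      (n'' := e + ∑ l ∈ univ.erase j, nn l) ?_ ?_ ?_ (hΓm j) (hΓirr j) (iΓ j)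
      (iΦ.mul (Inf_prod _ iΓ)) ?_ ?_ hsi ?_ (fun x h1 h2 => (hinf x h1 h2).1) (hτ j) (hτ0 j)
    · rw [← Finset.mul_prod_erase univ Γ (mem_univ j)]
      ring
    · refine mul_dvd_mul_left _ (Finset.prod_dvd_prod_of_subset _ _ _ fun l hl => ?_)
      rw [mem_filter] at hl
      exact mem_erase.2 ⟨hl.2.ne, mem_univ l⟩
    · exact hFm.mul (monic_prod_of_monic _ _ fun i _ => hΓm i)
    · rw [← hn, ← Finset.add_sum_erase univ nn (mem_univ j)]
      ring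
    · rw [← Finset.mul_prod_erase univ Γi (mem_univ j)]
      ring
    · intro t ht x h0
      rw [ev2_mul] at h0
      rcases mul_eq_zero.1 h0 with h1 | h1
      · exact ev2_dvd hZF h1
      · rw [ev2_prod, Finset.prod_eq_zero_iff] at h1
        obtain ⟨l, hl, hl0⟩ := h1
        rw [mem_filter] at hl
        exact ih l hl.2 t ht x hl0
  have hρ1 : ρ.natDegree ≤ e + n + 1 := by
    have hV1 : V.natDegree ≤ 1 := by rw [hV]; exact natDegree_VV _ _ _
    have h3 : ρ = (ρ - V * (F * ∏ j, Γ j)) + V * (F * ∏ j, Γ j) := by ring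
    rw [h3]
    refine (natDegree_add_le _ _).trans (max_le (by omega) (natDegree_mul_le.trans ?_))
    omega
  refine ND.endgame S he hσ hD0 hαβ hFd TQ iΦ iΨ hsi D hγ hhc TH hp1d hρ1 TP TZ hE ?_
  intro t ht x h0
  rw [ev2_mul] at h0
  rcases mul_eq_zero.1 h0 with h1 | h1
  · exact ev2_dvd hZF h1
  · rw [ev2_prod, Finset.prod_eq_zero_iff] at h1
    obtain ⟨l, -, hl0⟩ := h1
    exact hch l t ht x hl0

end

end Pool.Agent.H941.ND
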