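import Pool.Agent.H941.ND.Interp

set_option autoImplicit false
set_option linter.unusedSectionVars false
set_option linter.unusedVariables false

/-! # Curves with ordinary double points -/

namespace Pool.Agent.H941.ND

open Polynomial Finset Filter Topology Metric Pool.Agent.Helper748.TP Pool.Agent.H941.TF
  Pool.Agent.H941.SC Pool.Agent.H941.NC

/-- A reduced curve all of whose singular points are ordinary double points, where no branch has a
vertical tangent. -/
structure Nod (F : ℂ[X][X]) (B : Finset ℂ) : Prop where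
  monic : F.Monic
  sep : ∀ t ∉ B, (evt t F).Separable
  node : ∀ t x, ev2 F t x = 0 → ev2 (dt F) t x = 0 → ev2 (derivative F) t x = 0 →
    ev2 (derivative (derivative F)) t x ≠ 0 ∧
    ev2 (dt (derivative F)) t x ^ 2 -
      ev2 (dt (dt F)) t x * ev2 (derivative (derivative F)) t x ≠ 0

theorem Nod.ne {F : ℂ[X][X]} {B : Finset ℂ} (S : Nod F B) {t x : ℂ} (ht : t ∉ B)
    (h0 : ev2 F t x = 0) : ev2 (derivative F) t x ≠ 0 := by
  have := sep_der (S.sep t ht) h0
  rwa [← evt_der] at this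

/-- **Continuous functions on a curve with ordinary double points.** -/
theorem Nod.start {N : ℕ} {Q F : ℂ[X][X]} {B : Finset ℂ} (S : Nod F B) (hF0 : F.natDegree ≠ 0)
    (hFQ : F ∣ Q) {A H : ℂ[X][X]} (hH : ∀ t ∉ B, ∀ x, ev2 F t x = 0 → ev2 H t x ≠ 0)
    (hpar : ∀ b, ∃ (m : ℕ) (a : Fin N → ℂ → ℂ) (L : Fin N → ℂ), 0 < m ∧
      (∀ j, AnalyticAt ℂ (a j) 0) ∧ Par N Q (fun u => b + u ^ m) a ∧
      (∀ j, (∀ᶠ u in 𝓝[≠] (0 : ℂ), ev2 F (b + u ^ m) (a j u) = 0) →
        Tendsto (fun u => ev2 A (b + u ^ m) (a j u) / ev2 H (b + u ^ m) (a j u))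
          (𝓝[≠] 0) (𝓝 (L j))) ∧ ∀ j i, a j 0 = a i 0 → L j = L i) :
    ∃ W, F ∣ A - H * W := by
  classical
  obtain ⟨P, hP⟩ := bdd_poly S.monic hF0 hFQ S.sep hH (fun b => by
    obtain ⟨m, a, L, hm, ha, Pr, hL, -⟩ := hpar b
    exact ⟨m, a, L, hm, ha, Pr, hL⟩)
  have hPF : ∀ t ∉ B, ∀ x, ev2 F t x = 0 →
      ev2 P t x / ev2 (derivative F) t x = ev2 A t x / ev2 H t x := by
    intro t ht x h0
    have h1 := ev2_dvd hP h0
    rw [ev2_sub, ev2_mul, ev2_mul] at h1
    rw [div_eq_div_iff (S.ne ht h0) (hH t ht x h0)]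
    linear_combination -h1
  suffices hW : ∃ W, F ∣ P - derivative F * W by
    obtain ⟨W, hW⟩ := hW
    refine ⟨W, dvd_of_ev S.monic (B := B) fun t ht => ⟨S.sep t ht, fun x hx => ?_⟩⟩
    have h1 := ev2_dvd hP hx
    have h2 := ev2_dvd hW hx
    have h3 := S.ne ht hx
    rw [ev2_sub, ev2_mul, ev2_mul] at h1
    rw [ev2_sub, ev2_mul] at h2 ⊢
    refine (mul_eq_zero.1 ?_).resolve_left h3
    linear_combination h1 + ev2 H t x * h2
  set w := derivative F with hw
  set I : Ideal ℂ[X][X] := Ideal.span {F, w} with hI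
  set J : Ideal ℂ[X][X] := Submodule.comap (LinearMap.toSpanSingleton ℂ[X][X] ℂ[X][X] P) I with hJd
  have hmem : ∀ c, (∃ W, F ∣ c * P - w * W) ↔ c ∈ J := by
    intro c
    rw [hJd, Submodule.mem_comap, LinearMap.toSpanSingleton_apply, smul_eq_mul, hI,
      Ideal.mem_span_pair]
    constructor
    · rintro ⟨W, v, hv⟩
      exact ⟨v, W, by linear_combination -hv⟩
    · rintro ⟨a, b, hab⟩
      exact ⟨b, a, by rw [← hab]; ring⟩
  by_cases hT : J = ⊤
  · have h1 : (1 : ℂ[X][X]) ∈ J := by rw [hT]; trivial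
    obtain ⟨W, h⟩ := (hmem 1).2 h1
    rw [one_mul] at h
    exact ⟨W, h⟩
  exfalso
  obtain ⟨M, hM, hJM⟩ := Ideal.exists_le_maximal J hT
  obtain ⟨t, x, hpt⟩ := max_pt M hM
  have hcon : ∀ g W, F ∣ g * P - w * W → ev2 g t x = 0 := fun g W h =>
    (hpt g).1 (hJM ((hmem g).1 ⟨W, h⟩))
  have h0 := hcon F 0 ⟨P, by ring⟩
  have hx := hcon w P ⟨0, by ring⟩
  obtain ⟨m, a, L, hm, ha, Pr, hL, hLL⟩ := hpar t
  have hTa : AnalyticAt ℂ (fun u : ℂ => t + u ^ m) 0 := by fun_prop
  have hT0 : t + (0 : ℂ) ^ m = t := by rw [zero_pow hm.ne', add_zero]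
  have hBu := ev_notin B t hm
  have hLim : ∀ j, (∀ᶠ u in 𝓝[≠] (0 : ℂ), ev2 F (t + u ^ m) (a j u) = 0) →
      Tendsto (fun u => ev2 P (t + u ^ m) (a j u) / ev2 w (t + u ^ m) (a j u))
        (𝓝[≠] 0) (𝓝 (L j)) := by
    intro j hj
    refine (hL j hj).congr' ?_
    filter_upwards [hj, hBu] with u k1 k2
    exact (hPF _ k2 _ k1).symm
  by_cases ht : ev2 (dt F) t x = 0
  · obtain ⟨hxx, hd⟩ := S.node t x h0 ht hx
    obtain ⟨J', hJ', hJ0⟩ := famJ Pr S.monic hFQ
    obtain ⟨j1, m1, j2, m2, z1, z2, hne2, hrat⟩ := node_two (T := fun u => t + u ^ m) hTa ha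
      Pr.inj hJ' (x := x) (by rw [hT0]; exact h0) (by rw [hT0]; exact hx) (by rw [hT0]; exact hxx)
    obtain ⟨θ1, hθ1, hq1⟩ := node_lim hm (ha j1) z1 h0 ht hx hxx (hJ0 j1 m1)
    obtain ⟨θ2, hθ2, hq2⟩ := node_lim hm (ha j2) z2 h0 ht hx hxx (hJ0 j2 m2)
    have l1 := lin_lim (P := w) hm (ha j1) z1 hx hθ1
    have l2 := lin_lim (P := w) hm (ha j2) z2 hx hθ2
    set q1 := ev2 (dt w) t x + ev2 (derivative w) t x * θ1 with hq1d
    set q2 := ev2 (dt w) t x + ev2 (derivative w) t x * θ2 with hq2d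
    have q1s : q1 ^ 2 ≠ 0 := by
      rw [hq1d]
      intro h
      apply hd
      rw [← hq1]
      linear_combination h
    have q2s : q2 ^ 2 ≠ 0 := by
      rw [hq2d]
      intro h
      apply hd
      rw [← hq2]
      linear_combination h
    have q10 : q1 ≠ 0 := fun h => q1s (by rw [h]; ring)
    have q20 : q2 ≠ 0 := fun h => q2s (by rw [h]; ring)
    have hqq : q1 / q2 = -1 := by
      refine tendsto_nhds_unique (l1.div l2 q20) (hrat.congr' ?_)
      filter_upwards [ev_ne] with u hu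
      have h3 : u ^ m ≠ 0 := pow_ne_zero m hu
      change _ = ev2 w (t + u ^ m) (a j1 u) / u ^ m / (ev2 w (t + u ^ m) (a j2 u) / u ^ m)
      rw [div_div_div_cancel_right₀ h3]
    have hqq' : q1 = -q2 := by
      rw [div_eq_iff q20] at hqq
      rw [hqq]
      ring
    have hLe : L j1 = L j2 := hLL j1 j2 (by rw [z1, z2])
    have hPp : ev2 P t x = 0 := by
      have e1 := tendP P t hm (ha j1)
      have e2 := (hLim j1 (hJ0 j1 m1)).mul (tendP w t hm (ha j1))
      rw [z1] at e1 e2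
      rw [hx, mul_zero] at e2
      refine tendsto_nhds_unique e1 (e2.congr' ?_)
      filter_upwards [hJ0 j1 m1, hBu] with u k1 k2
      exact div_mul_cancel₀ _ (S.ne k2 k1)
    have hPl : ∀ j θ q, a j 0 = x → (∀ᶠ u in 𝓝[≠] (0 : ℂ), ev2 F (t + u ^ m) (a j u) = 0) →
        Tendsto (fun u => (a j u - x) / u ^ m) (𝓝[≠] 0) (𝓝 θ) →
        Tendsto (fun u => ev2 w (t + u ^ m) (a j u) / u ^ m) (𝓝[≠] 0) (𝓝 q) →
        ev2 (dt P) t x + ev2 (derivative P) t x * θ = L j * q := by
      intro j θ q hj0 hj hθ hq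
      refine tendsto_nhds_unique (lin_lim (P := P) hm (ha j) hj0 hPp hθ)
        (((hLim j hj).mul hq).congr' ?_)
      filter_upwards [hj, hBu, ev_ne] with u k1 k2 k3
      have h3 : u ^ m ≠ 0 := pow_ne_zero m k3
      have h4 := S.ne k2 k1
      rw [div_mul_div_comm, mul_comm (ev2 w (t + u ^ m) (a j u)) (u ^ m),
        mul_div_mul_right _ _ h4]
    have c1 := hPl j1 θ1 q1 z1 (hJ0 j1 m1) hθ1 l1
    have c2 := hPl j2 θ2 q2 z2 (hJ0 j2 m2) hθ2 l2
    have hθ : θ1 - θ2 ≠ 0 := by
      intro h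
      apply q20
      have h1 : q1 = q2 := by
        rw [hq1d, hq2d, sub_eq_zero.1 h]
      rw [h1] at hqq'
      linear_combination (1 / 2 : ℂ) * hqq'
    have hPx : ev2 (derivative P) t x = L j1 * ev2 (derivative w) t x := by
      refine sub_eq_zero.1 ((mul_eq_zero.1 ?_).resolve_right hθ)
      rw [← hLe, hq2d] at c2
      rw [hq1d] at c1
      linear_combination c1 - c2
    have hPt : ev2 (dt P) t x = L j1 * ev2 (dt w) t x := by
      rw [hq1d] at c1
      linear_combination c1 - θ1 * hPx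
    obtain ⟨g, W, hg, hgW⟩ := node_div h0 ht hx hxx hd hPp hPt hPx
    exact hg (hcon g W hgW)
  · obtain ⟨j, hj, hj0⟩ := fam (Γ := F) Pr hTa ha S.monic hFQ (ξ := x) (by rw [hT0]; exact h0)
    have hb : Br F P w t x (L j) := by
      refine ⟨m, a j, hm, ha j, hj, hj0, ?_, hLim j hj0⟩
      filter_upwards [hj0, hBu] with u k1 k2
      exact S.ne k2 k1
    obtain ⟨g, W, hg, hgW, -⟩ := hb.div (Or.inr ht)
    exact hg (hcon g W hgW)

/-- the values at a double point -/
theorem tan_zero {F a6 c6 : ℂ[X][X]} {t x : ℂ} (htan : F ∣ dt F * a6 + derivative F * c6)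
    (h0 : ev2 F t x = 0) (ht : ev2 (dt F) t x = 0) (hx : ev2 (derivative F) t x = 0)
    (hd : ev2 (dt (derivative F)) t x ^ 2 -
      ev2 (dt (dt F)) t x * ev2 (derivative (derivative F)) t x ≠ 0) : ev2 a6 t x = 0 := by
  obtain ⟨s, hs⟩ := htan
  have h1 := congrArg (fun P => ev2 (dt P) t x) hs
  have h2 := congrArg (fun P => ev2 (derivative P) t x) hs
  beta_reduce at h1 h2
  rw [dt_add, dt_mul, dt_mul, dt_mul, ev2_add, ev2_add, ev2_add, ev2_add, ev2_mul, ev2_mul,
    ev2_mul, ev2_mul, ev2_mul, ev2_mul, h0, ht, hx] at h1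
  rw [derivative_add, derivative_mul, derivative_mul, derivative_mul, ev2_add, ev2_add, ev2_add,
    ev2_add, ev2_mul, ev2_mul, ev2_mul, ev2_mul, ev2_mul, ev2_mul, h0, ht, hx, ← dt_der] at h2
  refine (mul_eq_zero.1 ?_).resolve_left hd
  linear_combination ev2 (dt (derivative F)) t x * h2 -
    ev2 (derivative (derivative F)) t x * h1

/-- **Tangent vector fields.** -/
theorem Nod.field {F Ψ Φi Ψi : ℂ[X][X]} {D0 : ℂ[X]} {e n q : ℕ}
    (S : Nod F D0.roots.toFinset) (he : q + 4 ≤ e)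
    (hD0 : D0 ≠ 0) {α β : ℂ[X][X]} (hQm : (F * Ψ).Monic)
    (hQN : (F * Ψ).natDegree = e + n)
    (hαβ : C D0 = α * (F * Ψ) + β * derivative (F * Ψ))
    (iΦ : Inf F Φi e) (iΨ : Inf Ψ Ψi n) (hs : (evt 0 (Φi * Ψi)).Separable)
    (hpar : ∀ b, ∃ (m : ℕ) (a : Fin (e + n) → ℂ → ℂ), 0 < m ∧ (∀ j, AnalyticAt ℂ (a j) 0) ∧
      Par (e + n) (F * Ψ) (fun u => b + u ^ m) a)
    {a6 c6 : ℂ[X][X]} (htan : F ∣ dt F * a6 + derivative F * c6)
    (TA : TD ((q : ℤ) + 2) a6) :
    ∀ t ∉ D0.roots.toFinset, ∀ x, ev2 F t x = 0 → ev2 a6 t x = 0 := by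
  classical
  have hB : ∀ t ∉ D0.roots.toFinset, D0.eval t ≠ 0 := by
    intro t ht h
    rw [Multiset.mem_toFinset, mem_roots hD0] at ht
    exact ht h
  have hFx : ∀ t ∉ D0.roots.toFinset, ∀ x, ev2 F t x = 0 → ev2 (derivative F) t x ≠ 0 :=
    fun t ht x h0 => S.ne ht h0
  have htd0 : ∀ t x, ev2 F t x = 0 →
      ev2 (dt F) t x * ev2 a6 t x + ev2 (derivative F) t x * ev2 c6 t x = 0 := by
    intro t x h0
    have h1 := ev2_dvd htan h0
    rwa [ev2_add, ev2_mul, ev2_mul] at h1
  set v : ℂ → ℂ → ℂ := fun t x => if ev2 F t x = 0 then ev2 a6 t x / ev2 (derivative F) t x else 0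
    with hv
  have hvan := van (v := v) hQm hQN hαβ hB (fun t ht a ha h => by
    have hid : HasDerivAt (fun u : ℂ => u) 1 t := hasDerivAt_id' t
    have hd : ∀ P : ℂ[X][X], DifferentiableAt ℂ (fun u => ev2 P u (a u)) t := fun P =>
      (hasDerivAt_ev2 P hid ha.hasDerivAt).differentiableAt
    by_cases h1 : ev2 F t (a t) = 0
    · have hΨ0 : ev2 Ψ t (a t) ≠ 0 := by
        have h2 := sep_of_disc hαβ (hB t ht)
        rw [map_mul] at h2
        exact sep_ne h2 h1
      have h3 : ∀ᶠ s in 𝓝 t, ev2 Ψ s (a s) ≠ 0 := (hd Ψ).continuousAt.eventually_ne hΨ0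
      have h4 : (fun s => v s (a s)) =ᶠ[𝓝 t] fun s => ev2 a6 s (a s) / ev2 (derivative F) s (a s) := by
        filter_upwards [h, h3] with s e1 e2
        rw [ev2_mul] at e1
        simp only [hv, if_pos ((mul_eq_zero.1 e1).resolve_right e2)]
      exact ((hd a6).fun_div (hd _) (hFx t ht _ h1)).congr_of_eventuallyEq h4
    · have h3 : ∀ᶠ s in 𝓝 t, ev2 F s (a s) ≠ 0 := (hd F).continuousAt.eventually_ne h1
      have h4 : (fun s => v s (a s)) =ᶠ[𝓝 t] fun _ => 0 := by
        filter_upwards [h3] with s e1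
        simp only [hv, if_neg e1]
      exact (differentiableAt_const _).congr_of_eventuallyEq h4)
    (fun b hb => by
      obtain ⟨m, a, hm, ha, P⟩ := hpar b
      refine ⟨m, a, hm, P, fun j => ?_⟩
      have htd : ∀ P, Tendsto (fun u => ev2 P (b + u ^ m) (a j u)) (𝓝[≠] 0)
          (𝓝 (ev2 P b (a j 0))) := fun P => tendP P b hm (ha j)
      rcases fam_ind (Γ := F) P j with h1 | h1
      · have hp : ev2 F b (a j 0) = 0 :=
          tendsto_nhds_unique (htd F) (tendsto_const_nhds.congr' (h1.mono fun u hu => hu.symm))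
        have hBu := ev_notin D0.roots.toFinset b hm
        by_cases hx : ev2 (derivative F) b (a j 0) = 0
        · by_cases ht : ev2 (dt F) b (a j 0) = 0
          · obtain ⟨hxx, hdd⟩ := S.node b _ hp ht hx
            have hz := tan_zero htan hp ht hx hdd
            obtain ⟨θ, hθ, hq⟩ := node_lim hm (ha j) rfl hp ht hx hxx h1
            have l1 := lin_lim (P := derivative F) hm (ha j) rfl hx hθ
            have l2 := lin_lim (P := a6) hm (ha j) rfl hz hθ
            have q0 : ev2 (dt (derivative F)) b (a j 0) +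
                ev2 (derivative (derivative F)) b (a j 0) * θ ≠ 0 := by
              intro h
              apply hdd
              rw [← hq]
              linear_combination (ev2 (dt (derivative F)) b (a j 0) +
                ev2 (derivative (derivative F)) b (a j 0) * θ) * h
            refine ⟨_, (l2.div l1 q0).congr' ?_⟩
            filter_upwards [h1, ev_ne] with u k1 k3
            have h3 : u ^ m ≠ 0 := pow_ne_zero m k3
            simp only [hv, if_pos k1]
            change ev2 a6 _ _ / u ^ m / (ev2 (derivative F) _ _ / u ^ m) = _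
            rw [div_div_div_cancel_right₀ h3]
          · refine ⟨_, (((htd c6).div (htd (dt F)) ht).neg).congr' ?_⟩
            filter_upwards [h1, hBu, (htd (dt F)).eventually_ne ht] with u k1 k2 k4
            have k6 := hFx _ k2 _ k1
            have k7 := htd0 _ _ k1
            simp only [hv, if_pos k1]
            change -(ev2 c6 _ _ / ev2 (dt F) _ _) = _
            rw [neg_eq_iff_eq_neg, div_eq_iff k4, ← neg_div, div_mul_eq_mul_div, eq_div_iff k6]
            linear_combination k7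
        · refine ⟨_, ((htd a6).div (htd (derivative F)) hx).congr' ?_⟩
          filter_upwards [h1] with u k1
          simp only [hv, if_pos k1]
          rfl
      · refine ⟨0, tendsto_const_nhds.congr' ?_⟩
        filter_upwards [h1] with u hu
        simp only [hv, if_neg hu])
    (by
      have iQ : Inf (F * Ψ) (Φi * Ψi) (e + n) := iΦ.mul iΨ
      obtain ⟨X', hX, hX0, hXr, P⟩ := iQ.par hQm hQN (by omega) hs
      refine ⟨X', P, fun j => ?_⟩
      have hXroot : ∀ᶠ u in 𝓝 (0 : ℂ), ev2 (Φi * Ψi) u (X' j u) = 0 := by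
        filter_upwards [hXr] with u hu
        rw [ev2, hu]
        exact eval_nod (x := fun j => X' j u) j
      rcases inf_dich iΦ iΨ hs (hX j) hXroot with ⟨h1, h2, h3⟩ | h1
      · have hsΦ : (evt 0 Φi).Separable := by
          have h := hs
          rw [map_mul] at h
          exact h.of_mul_left
        have n1 : ev2 (derivative Φi) 0 (X' j 0) ≠ 0 := by
          have := sep_der hsΦ h2
          rwa [← evt_der] at this
        have t2 := iΦ.lim' (hX j)
        obtain ⟨l, hl⟩ := TA.lim (X := X' j)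
          ((hX j).continuousAt.tendsto.mono_left (nhdsWithin_le_nhds (s := {0}ᶜ)))
        obtain ⟨k, hk⟩ := Nat.exists_eq_add_of_le he
        have hu : Tendsto (fun u : ℂ => u ^ (k + 1)) (𝓝[≠] 0) (𝓝 0) := by
          have := ((continuous_pow (k + 1)).tendsto (0 : ℂ)).mono_left
            (nhdsWithin_le_nhds (s := {0}ᶜ))
          rwa [zero_pow (Nat.succ_ne_zero _)] at this
        have h4 := hu.mul (hl.div t2 n1)
        rw [zero_mul] at h4
        refine h4.congr' ?_
        filter_upwards [h1, ev_ne, t2.eventually_ne n1] with u k1 k2 k3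
        simp only [hv, if_pos k1]
        change u ^ (k + 1) * (u ^ ((q : ℤ) + 2) * _ / (u ^ ((e : ℤ) - 1) * _)) = _
        have k4 := right_ne_zero_of_mul k3
        have k5 : u ^ ((e : ℤ) - 1) = u ^ (k + 1) * u ^ ((q : ℤ) + 2) := by
          rw [hk, ← zpow_natCast, ← zpow_add₀ k2]
          congr 1
          push_cast
          ring
        rw [k5]
        have k6 : ∀ A B w1 w2 : ℂ, B ≠ 0 → w1 ≠ 0 → w2 ≠ 0 →
            w1 * (w2 * A / (w1 * w2 * B)) = A / B := by
          intro A B w1 w2 i1 i2 i3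
          field_simp
        exact k6 _ _ _ _ k4 (pow_ne_zero _ k2) (zpow_ne_zero _ k2)
      · refine tendsto_const_nhds.congr' ?_
        filter_upwards [h1] with u hu
        simp only [hv, if_neg hu])
  intro t ht x hx
  have h1 := hvan t ht x (by rw [ev2_mul, hx, zero_mul])
  simp only [hv, if_pos hx] at h1
  exact (div_eq_zero_iff.1 h1).resolve_right (hFx t ht x hx)

end Pool.Agent.H941.ND
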