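import Pool.Agent.H941.NC.Field

set_option autoImplicit false
set_option linter.unusedSectionVars false
set_option linter.unusedVariables false

/-! # Ordinary double points -/

namespace Pool.Agent.H941.ND

open Polynomial Finset Filter Topology Metric Pool.Agent.Helper748.TP Pool.Agent.H941.TF
  Pool.Agent.H941.SC Pool.Agent.H941.NC

theorem dtτ (t : ℂ) : dt (C (X - C t) : ℂ[X][X]) = 1 := by
  rw [dt_C, derivative_X_sub_C, C_1]

theorem dtξ (x : ℂ) : dt (X - C (C x) : ℂ[X][X]) = 0 := by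
  have hX : dt (X : ℂ[X][X]) = 0 := by
    ext1 n
    rw [coeff_dt, coeff_X, coeff_zero]
    split_ifs
    · exact derivative_one
    · exact derivative_zero
  rw [dt_sub, hX, dt_C, derivative_C, C_0, sub_zero]

theorem derτ (t : ℂ) : derivative (C (X - C t) : ℂ[X][X]) = 0 := derivative_C

theorem derξ (x : ℂ) : derivative (X - C (C x) : ℂ[X][X]) = 1 := derivative_X_sub_C _

theorem evτ (t x : ℂ) (s : ℂ) : ev2 (C (X - C t) : ℂ[X][X]) s x = s - t := by
  rw [ev2_C, eval_sub, eval_X, eval_C]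

theorem evξ (t x : ℂ) (y : ℂ) : ev2 (X - C (C x) : ℂ[X][X]) t y = y - x := by
  rw [ev2_sub, ev2_X, ev2_C, eval_C]

/-- second order expansion -/
theorem dec2 {F : ℂ[X][X]} {t x : ℂ} (h0 : ev2 F t x = 0) (ht : ev2 (dt F) t x = 0)
    (hx : ev2 (derivative F) t x = 0) :
    ∃ A B D : ℂ[X][X], F = C (X - C t) ^ 2 * A + C (X - C t) * (X - C (C x)) * B +
      (X - C (C x)) ^ 2 * D ∧ ev2 (dt (dt F)) t x = 2 * ev2 A t x ∧
      ev2 (dt (derivative F)) t x = ev2 B t x ∧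
      ev2 (derivative (derivative F)) t x = 2 * ev2 D t x := by
  obtain ⟨F1, F2, hF, e1, e2⟩ := dec' F t x h0
  rw [e1] at ht
  rw [e2] at hx
  obtain ⟨A, B1, hF1, a1, b1⟩ := dec' F1 t x ht
  obtain ⟨B2, D, hF2, b2, d2⟩ := dec' F2 t x hx
  have hd1 : dt F = F1 + C (X - C t) * dt F1 + (X - C (C x)) * dt F2 := by
    rw [hF, dt_add, dt_mul, dt_mul, dtτ, dtξ]
    ring
  have hd2 : derivative F = F2 + C (X - C t) * derivative F1 + (X - C (C x)) * derivative F2 := by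
    rw [hF, derivative_add, derivative_mul, derivative_mul, derτ, derξ]
    ring
  have z1 : ev2 (C (X - C t) : ℂ[X][X]) t x = 0 := by rw [evτ, sub_self]
  have z2 : ev2 (X - C (C x) : ℂ[X][X]) t x = 0 := by rw [evξ, sub_self]
  refine ⟨A, B1 + B2, D, ?_, ?_, ?_, ?_⟩
  · rw [hF, hF1, hF2]
    ring
  · rw [hd1, dt_add, dt_add, dt_mul, dt_mul, dtτ, dtξ, ev2_add, ev2_add, ev2_add, ev2_add,
      ev2_mul, ev2_mul, ev2_mul, ev2_mul, z1, z2, ← a1]
    have : ev2 (1 : ℂ[X][X]) t x = 1 := by rw [← C_1, ev2_C, eval_one]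
    rw [this, ev2_zero]
    ring
  · rw [hd2, dt_add, dt_add, dt_mul, dt_mul, dtτ, dtξ, ev2_add, ev2_add, ev2_add, ev2_add,
      ev2_mul, ev2_mul, ev2_mul, ev2_mul, z1, z2, ev2_add, ← b1, ← b2]
    have : ev2 (1 : ℂ[X][X]) t x = 1 := by rw [← C_1, ev2_C, eval_one]
    rw [this, ev2_zero]
    ring
  · rw [hd2, derivative_add, derivative_add, derivative_mul, derivative_mul, derτ, derξ, ev2_add,
      ev2_add, ev2_add, ev2_add, ev2_mul, ev2_mul, ev2_mul, ev2_mul, z1, z2, ← d2]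
    have : ev2 (1 : ℂ[X][X]) t x = 1 := by rw [← C_1, ev2_C, eval_one]
    rw [this, ev2_zero]
    ring

/-- the slope of a branch at a double point without vertical branches -/
theorem node_lim {F : ℂ[X][X]} {t x : ℂ} {m : ℕ} (hm : 0 < m) {a : ℂ → ℂ}
    (ha : AnalyticAt ℂ a 0) (hax : a 0 = x)
    (h0 : ev2 F t x = 0) (ht : ev2 (dt F) t x = 0) (hx : ev2 (derivative F) t x = 0)
    (hxx : ev2 (derivative (derivative F)) t x ≠ 0)
    (hr : ∀ᶠ u in 𝓝[≠] (0 : ℂ), ev2 F (t + u ^ m) (a u) = 0) :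
    ∃ θ, Tendsto (fun u => (a u - x) / u ^ m) (𝓝[≠] 0) (𝓝 θ) ∧
      (ev2 (derivative (derivative F)) t x * θ + ev2 (dt (derivative F)) t x) ^ 2 =
        ev2 (dt (derivative F)) t x ^ 2 -
          ev2 (dt (dt F)) t x * ev2 (derivative (derivative F)) t x := by
  obtain ⟨A, B, D, hF, e1, e2, e3⟩ := dec2 h0 ht hx
  set g : ℂ → ℂ := fun u => (a u - x) / u ^ m with hg
  have hgm : MeromorphicAt g 0 := by
    have h1 : AnalyticAt ℂ (fun u => a u - x) 0 := ha.sub analyticAt_const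
    have h2 : AnalyticAt ℂ (fun u : ℂ => u ^ m) 0 := by fun_prop
    exact h1.meromorphicAt.div h2.meromorphicAt
  have htd : ∀ P, Tendsto (fun u => ev2 P (t + u ^ m) (a u)) (𝓝[≠] 0) (𝓝 (ev2 P t x)) := by
    intro P
    have := tendP P t hm ha
    rwa [hax] at this
  have hrel : ∀ᶠ u in 𝓝[≠] (0 : ℂ), ev2 A (t + u ^ m) (a u) +
      ev2 B (t + u ^ m) (a u) * g u + ev2 D (t + u ^ m) (a u) * g u ^ 2 = 0 := by
    filter_upwards [hr, ev_ne] with u h1 h2
    have h3 : u ^ m ≠ 0 := pow_ne_zero m h2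
    rw [hF, ev2_add, ev2_add, ev2_mul, ev2_mul, ev2_mul, ev2_mul, ev2_pow, ev2_pow, evτ, evξ,
      add_sub_cancel_left] at h1
    have h4 : a u - x = g u * u ^ m := by rw [hg]; field_simp
    rw [h4] at h1
    refine (mul_eq_zero.1 ?_).resolve_left (pow_ne_zero 2 h3)
    linear_combination h1
  have hD : ev2 D t x ≠ 0 := by
    intro h
    rw [e3, h, mul_zero] at hxx
    exact hxx rfl
  rcases lt_or_ge (meromorphicOrderAt g 0) 0 with ho | ho
  · exfalso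
    have h1 := tendsto_cobounded_of_meromorphicOrderAt_neg ho
    have h2 : Tendsto (fun u => (g u)⁻¹) (𝓝[≠] 0) (𝓝 0) := tendsto_inv₀_cobounded.comp h1
    have h3 := (((htd A).mul (h2.pow 2)).add ((htd B).mul h2)).neg
    have h4 : ∀ᶠ u in 𝓝[≠] (0 : ℂ), g u ≠ 0 := by
      have := h1.eventually (Bornology.eventually_ne_cobounded (0 : ℂ))
      exact this
    have e0 : -(ev2 A t x * 0 ^ 2 + ev2 B t x * 0) = 0 := by ring
    rw [e0] at h3
    apply hD
    refine tendsto_nhds_unique (htd D) (Tendsto.congr' ?_ h3)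
    filter_upwards [hrel, h4] with u k1 k2
    change -(ev2 A (t + u ^ m) (a u) * (g u)⁻¹ ^ 2 + ev2 B (t + u ^ m) (a u) * (g u)⁻¹) = _
    field_simp
    linear_combination -k1
  · obtain ⟨θ, hθ⟩ := tendsto_nhds_of_meromorphicOrderAt_nonneg hgm ho
    refine ⟨θ, hθ, ?_⟩
    have h1 : ev2 A t x + ev2 B t x * θ + ev2 D t x * θ ^ 2 = 0 :=
      tendsto_nhds_unique (((htd A).add ((htd B).mul hθ)).add ((htd D).mul (hθ.pow 2)))
        (tendsto_const_nhds.congr' (hrel.mono fun u hu => hu.symm))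
    rw [e1, e2, e3]
    linear_combination 4 * ev2 D t x * h1

/-- first order terms along a branch -/
theorem lin_lim {P : ℂ[X][X]} {t x : ℂ} {m : ℕ} (hm : 0 < m) {a : ℂ → ℂ}
    (ha : AnalyticAt ℂ a 0) (hax : a 0 = x) (h0 : ev2 P t x = 0) {θ : ℂ}
    (hθ : Tendsto (fun u => (a u - x) / u ^ m) (𝓝[≠] 0) (𝓝 θ)) :
    Tendsto (fun u => ev2 P (t + u ^ m) (a u) / u ^ m) (𝓝[≠] 0)
      (𝓝 (ev2 (dt P) t x + ev2 (derivative P) t x * θ)) := by
  obtain ⟨A, B, hP, e1, e2⟩ := dec' P t x h0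
  have htd : ∀ P, Tendsto (fun u => ev2 P (t + u ^ m) (a u)) (𝓝[≠] 0) (𝓝 (ev2 P t x)) := by
    intro P
    have := tendP P t hm ha
    rwa [hax] at this
  rw [e1, e2]
  refine ((htd A).add ((htd B).mul hθ)).congr' ?_
  filter_upwards [ev_ne] with u h2
  have h3 : u ^ m ≠ 0 := pow_ne_zero m h2
  conv_rhs => rw [hP]
  rw [ev2_add, ev2_mul, ev2_mul, evτ, evξ, add_sub_cancel_left]
  field_simp

/-- local division at a double point -/
theorem node_div {F P : ℂ[X][X]} {t x L : ℂ} (h0 : ev2 F t x = 0) (ht : ev2 (dt F) t x = 0)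
    (hx : ev2 (derivative F) t x = 0) (hxx : ev2 (derivative (derivative F)) t x ≠ 0)
    (hd : ev2 (dt (derivative F)) t x ^ 2 -
      ev2 (dt (dt F)) t x * ev2 (derivative (derivative F)) t x ≠ 0)
    (hP : ev2 P t x = 0) (hPt : ev2 (dt P) t x = L * ev2 (dt (derivative F)) t x)
    (hPx : ev2 (derivative P) t x = L * ev2 (derivative (derivative F)) t x) :
    ∃ g W, ev2 g t x ≠ 0 ∧ F ∣ g * P - derivative F * W := by
  obtain ⟨A, B, D, hF, e1, e2, e3⟩ := dec2 h0 ht hx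
  obtain ⟨W1, W2, hw, w1, w2⟩ := dec' (derivative F) t x hx
  set w := derivative F with hwd
  obtain ⟨a, b, c, hP', -, -, -⟩ := dec2 (F := P - kc L * w) (t := t) (x := x)
    (by rw [ev2_sub, ev2_mul, hP, hx, mul_zero, sub_zero])
    (by rw [dt_sub, dt_kc, ev2_sub, ev2_mul, ev2_kc, hPt, sub_self])
    (by rw [derivative_sub, der_kc, ev2_sub, ev2_mul, ev2_kc, hPx, sub_self])
  set τ : ℂ[X][X] := C (X - C t) with hτ
  set ξ : ℂ[X][X] := X - C (C x) with hξ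
  refine ⟨(A * W2 ^ 2 - B * W2 * W1 + D * W1 ^ 2) * W2 ^ 2,
    kc L * ((A * W2 ^ 2 - B * W2 * W1 + D * W1 ^ 2) * W2 ^ 2) -
    (a * W2 ^ 2 - b * W2 * W1 + c * W1 ^ 2) * (W2 * B * τ + D * (w - 2 * W1 * τ)) +
    (A * W2 ^ 2 - B * W2 * W1 + D * W1 ^ 2) * (W2 * b * τ + c * (w - 2 * W1 * τ)), ?_,
    (a * W2 ^ 2 - b * W2 * W1 + c * W1 ^ 2) * W2 ^ 2, ?_⟩
  · rw [ev2_mul, ev2_pow, ← w2]
    refine mul_ne_zero ?_ (pow_ne_zero 2 hxx)
    rw [ev2_add, ev2_sub, ev2_mul, ev2_mul, ev2_mul, ev2_mul, ev2_pow, ev2_pow, ← w2, ← w1, ← e2]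
    intro h
    apply mul_ne_zero hxx hd
    linear_combination (-2) * h - ev2 (derivative w) t x ^ 2 * e1 - ev2 (dt w) t x ^ 2 * e3
  · have k1 : W2 ^ 2 * F = (A * W2 ^ 2 - B * W2 * W1 + D * W1 ^ 2) * τ ^ 2 +
        w * (W2 * B * τ + D * (w - 2 * W1 * τ)) := by
      linear_combination W2 ^ 2 * hF - (B * τ * W2 + D * (W2 * ξ + w - W1 * τ)) * hw
    have k2 : W2 ^ 2 * (P - kc L * w) = (a * W2 ^ 2 - b * W2 * W1 + c * W1 ^ 2) * τ ^ 2 +
        w * (W2 * b * τ + c * (w - 2 * W1 * τ)) := by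
      linear_combination W2 ^ 2 * hP' - (b * τ * W2 + c * (W2 * ξ + w - W1 * τ)) * hw
    linear_combination (A * W2 ^ 2 - B * W2 * W1 + D * W1 ^ 2) * k2 -
      (a * W2 ^ 2 - b * W2 * W1 + c * W1 ^ 2) * k1

end Pool.Agent.H941.ND
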